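import Mathlib

/-!
# Rational solutions of the functional equation of quantum multiplication

For a set `P` of primes every sequence of rational functions with support `S(P)` satisfying
`f_{mn}(q) = f_m(q) f_n(q^m)` is a quotient of two polynomial solutions with the same support if and
only if `P` has at most one element. For two distinct primes in `P` the sequence
`f_n(q) = (q - 2) / (q ^ n - 2)` (`n ∈ S(P)`) is not such a quotient.
-/

open Polynomial

namespace Pool.Agent.Results.MP_bcdf42_nt.QuotientsIffSubsingleton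

/-- `S(P)`: the multiplicative semigroup of positive integers generated by the set `P`, with `1`. -/
def SP (P : Set ℕ) : Set ℕ := (Submonoid.closure P : Set ℕ)

/-- The rational function `f(q ^ m)`, for a rational function `f(q)`: the variable `q` is replaced by
`q ^ m` in the numerator and in the denominator of `f`. -/
noncomputable def powSubst (m : ℕ) (f : RatFunc ℂ) : RatFunc ℂ :=
  algebraMap ℂ[X] (RatFunc ℂ) (expand ℂ m f.num) / algebraMap ℂ[X] (RatFunc ℂ) (expand ℂ m f.denom)

/-- The sequence `f` of rational functions (indexed by the positive integers; `f 0` is irrelevant) has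
support exactly `S(P)` and satisfies `f_{mn}(q) = f_m(q) f_n(q^m)` for all positive integers `m, n`. -/
def IsRationalSolution (P : Set ℕ) (f : ℕ → RatFunc ℂ) : Prop :=
  (∀ n, 0 < n → (f n ≠ 0 ↔ n ∈ SP P)) ∧
    ∀ m n, 0 < m → 0 < n → f (m * n) = f m * powSubst m (f n)

/-- The sequence `F` of polynomials (indexed by the positive integers; `F 0` is irrelevant) is in
`Γ(P)`: it has support exactly `S(P)` and satisfies `F_{mn}(q) = F_m(q) F_n(q^m)` for all positive
integers `m, n`. -/
def IsPolynomialSolution (P : Set ℕ) (F : ℕ → ℂ[X]) : Prop :=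
  (∀ n, 0 < n → (F n ≠ 0 ↔ n ∈ SP P)) ∧
    ∀ m n, 0 < m → 0 < n → F (m * n) = F m * expand ℂ m (F n)

/-- The sequence `f` is in `K(Γ(P))`: there are `F` and `G` in `Γ(P)` with `f_n = F_n / G_n` for `n`
in `S(P)` and `f_n = 0` for the other positive integers `n`. -/
def IsQuotient (P : Set ℕ) (f : ℕ → RatFunc ℂ) : Prop :=
  ∃ F G : ℕ → ℂ[X], IsPolynomialSolution P F ∧ IsPolynomialSolution P G ∧
    ∀ n, 0 < n →
      (n ∈ SP P → f n = algebraMap ℂ[X] (RatFunc ℂ) (F n) / algebraMap ℂ[X] (RatFunc ℂ) (G n)) ∧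
      (n ∉ SP P → f n = 0)

lemma expand_ne_zero' {m : ℕ} (hm : 0 < m) {p : ℂ[X]} (hp : p ≠ 0) : expand ℂ m p ≠ 0 :=
  (Polynomial.expand_ne_zero hm).mpr hp

lemma am_ne {p : ℂ[X]} (hp : p ≠ 0) : algebraMap ℂ[X] (RatFunc ℂ) p ≠ 0 :=
  RatFunc.algebraMap_ne_zero hp

lemma powSubst_div {m : ℕ} (hm : 0 < m) (p : ℂ[X]) {q : ℂ[X]} (hq : q ≠ 0) :
    powSubst m (algebraMap ℂ[X] (RatFunc ℂ) p / algebraMap ℂ[X] (RatFunc ℂ) q) =
      algebraMap ℂ[X] (RatFunc ℂ) (expand ℂ m p) / algebraMap ℂ[X] (RatFunc ℂ) (expand ℂ m q) := by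
  set x := algebraMap ℂ[X] (RatFunc ℂ) p / algebraMap ℂ[X] (RatFunc ℂ) q with hx
  have h1 : x.num * q = p * x.denom := (RatFunc.num_mul_eq_mul_denom_iff hq).mpr hx
  have h2 : expand ℂ m x.num * expand ℂ m q = expand ℂ m p * expand ℂ m x.denom := by
    rw [← map_mul, ← map_mul, h1]
  unfold powSubst
  rw [div_eq_div_iff (am_ne (expand_ne_zero' hm x.denom_ne_zero)) (am_ne (expand_ne_zero' hm hq)),
    ← RingHom.map_mul, ← RingHom.map_mul, h2]

lemma powSubst_zero {m : ℕ} : powSubst m 0 = 0 := by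
  unfold powSubst; simp

/-- Membership in `S(P)`. -/
lemma mem_SP {P : Set ℕ} (hP : ∀ p ∈ P, p.Prime) (n : ℕ) :
    n ∈ SP P ↔ n ≠ 0 ∧ ∀ p, p.Prime → p ∣ n → p ∈ P := by
  constructor
  · intro h
    refine Submonoid.closure_induction (motive := fun n _ => n ≠ 0 ∧ ∀ p, p.Prime → p ∣ n → p ∈ P)
      ?_ ?_ ?_ h
    · intro p hp
      refine ⟨(hP p hp).ne_zero, fun r hr hrp => ?_⟩
      rw [(Nat.prime_dvd_prime_iff_eq hr (hP p hp)).mp hrp]
      exact hp
    · exact ⟨one_ne_zero, fun p hp h1 => absurd (Nat.dvd_one.mp h1) hp.ne_one⟩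
    · rintro x y _ _ ⟨hx0, hx⟩ ⟨hy0, hy⟩
      refine ⟨mul_ne_zero hx0 hy0, fun p hp hpd => ?_⟩
      rcases (Nat.Prime.dvd_mul hp).mp hpd with h | h
      · exact hx p hp h
      · exact hy p hp h
  · rintro ⟨h0, h⟩
    show n ∈ Submonoid.closure P
    rw [← Nat.prod_primeFactorsList h0]
    apply Submonoid.list_prod_mem
    intro p hp
    exact Submonoid.subset_closure
      (h p (Nat.prime_of_mem_primeFactorsList hp) (Nat.dvd_of_mem_primeFactorsList hp))

lemma SP_mul {P : Set ℕ} (hP : ∀ p ∈ P, p.Prime) (m n : ℕ) :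
    m * n ∈ SP P ↔ m ∈ SP P ∧ n ∈ SP P := by
  rw [mem_SP hP, mem_SP hP, mem_SP hP]
  constructor
  · rintro ⟨h0, h⟩
    exact ⟨⟨left_ne_zero_of_mul h0, fun p hp hd => h p hp (hd.mul_right n)⟩,
      ⟨right_ne_zero_of_mul h0, fun p hp hd => h p hp (hd.mul_left m)⟩⟩
  · rintro ⟨⟨h0, h⟩, ⟨h0', h'⟩⟩
    refine ⟨mul_ne_zero h0 h0', fun p hp hpd => ?_⟩
    rcases (Nat.Prime.dvd_mul hp).mp hpd with h1 | h1
    · exact h p hp h1
    · exact h' p hp h1

/-- A polynomial solution for a set with two distinct primes `p, r` has no zero at `2` in `F_p`. -/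
lemma no_zero {P : Set ℕ} (hP : ∀ p ∈ P, p.Prime) {p r : ℕ} (hp : p ∈ P) (hr : r ∈ P) (hpr : p ≠ r)
    {F : ℕ → ℂ[X]} (hF : IsPolynomialSolution P F) : (F p).eval 2 ≠ 0 := by
  obtain ⟨hsupp, hfe⟩ := hF
  intro h2
  have pp := hP p hp
  have pr := hP r hr
  have memp : ∀ j, p ^ j ∈ SP P := fun j => (Submonoid.closure P).pow_mem (Submonoid.subset_closure hp) j
  have memr : ∀ j, r ^ j ∈ SP P := fun j => (Submonoid.closure P).pow_mem (Submonoid.subset_closure hr) j
  have hFp0 : F p ≠ 0 := (hsupp p pp.pos).mpr (by simpa using memp 1)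
  -- the point c k = 2 ^ (1 / r ^ k)
  set c : ℕ → ℂ := fun k => ((Real.exp (Real.log 2 / (r : ℝ) ^ k) : ℝ) : ℂ) with hc
  have hr0 : ∀ k, (0 : ℝ) < (r : ℝ) ^ k := fun k => pow_pos (by exact_mod_cast pr.pos) k
  have hcr : ∀ k, c k ^ (r ^ k) = 2 := by
    intro k
    simp only [hc]
    rw [← Complex.ofReal_pow, ← Real.exp_nat_mul]
    have : ((r ^ k : ℕ) : ℝ) * (Real.log 2 / (r : ℝ) ^ k) = Real.log 2 := by
      push_cast
      exact mul_div_cancel₀ _ (hr0 k).ne'
    rw [this, Real.exp_log (by norm_num)]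
    norm_num
  have hlog : (0 : ℝ) < Real.log 2 := Real.log_pos (by norm_num)
  have hcinj : ∀ k k' a b : ℕ, c k ^ a = c k' ^ b → a * r ^ k' = b * r ^ k := by
    intro k k' a b h
    simp only [hc] at h
    rw [← Complex.ofReal_pow, ← Complex.ofReal_pow, ← Real.exp_nat_mul, ← Real.exp_nat_mul] at h
    have h3 := Real.exp_injective (Complex.ofReal_injective h)
    have h4 : (a : ℝ) * (r : ℝ) ^ k' = b * (r : ℝ) ^ k := by
      have e1 := (hr0 k).ne'
      have e2 := (hr0 k').ne'
      field_simp at h3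
      linarith
    exact_mod_cast h4
  -- there is k such that F p does not vanish at c k ^ (p ^ i) for all i
  obtain ⟨k, hk⟩ : ∃ k, ∀ i, (F p).eval (c k ^ (p ^ i)) ≠ 0 := by
    by_contra hcon
    push Not at hcon
    choose i hi using hcon
    have hmem : ∀ k, c k ^ (p ^ i k) ∈ (F p).roots.toFinset := fun k => by
      rw [Multiset.mem_toFinset, mem_roots hFp0]
      exact hi k
    obtain ⟨k, k', hkk, heq⟩ := Finite.exists_ne_map_eq_of_infinite
      (fun k => (⟨c k ^ (p ^ i k), hmem k⟩ : {x // x ∈ (F p).roots.toFinset}))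
    have h5 : c k ^ (p ^ i k) = c k' ^ (p ^ i k') := congrArg Subtype.val heq
    have h6 := hcinj _ _ _ _ h5
    -- compare the exponents of r
    have h7 : (p ^ i k * r ^ k').factorization r = (p ^ i k' * r ^ k).factorization r := by rw [h6]
    rw [Nat.factorization_mul (pow_ne_zero _ pp.ne_zero) (pow_ne_zero _ pr.ne_zero),
      Nat.factorization_mul (pow_ne_zero _ pp.ne_zero) (pow_ne_zero _ pr.ne_zero)] at h7
    simp only [Nat.factorization_pow, Finsupp.add_apply, Finsupp.smul_apply, pr.factorization_self,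
      smul_eq_mul, mul_one] at h7
    have h8 : p.factorization r = 0 := by
      rw [pp.factorization]
      simp [hpr]
    rw [h8] at h7
    omega
  -- F (p ^ j) does not vanish at c k
  have hnz : ∀ j, (F (p ^ j)).eval (c k) ≠ 0 := by
    intro j
    induction j with
    | zero =>
      have h1 : F 1 ≠ 0 := (hsupp 1 one_pos).mpr (by simpa using memp 0)
      have h11 := hfe 1 1 one_pos one_pos
      have : F 1 = 1 := by
        rw [expand_one, one_mul] at h11
        exact (mul_left_cancel₀ h1 (by rw [mul_one]; exact h11)).symm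
      simp [this]
    | succ j ih =>
      rw [pow_succ, hfe (p ^ j) p (pow_pos pp.pos j) pp.pos, eval_mul, expand_eval]
      exact mul_ne_zero ih (hk j)
  -- F (p ^ (j+1)) vanishes at 2
  have hz2 : ∀ j, (F (p ^ (j + 1))).eval 2 = 0 := by
    intro j
    rw [pow_succ', hfe p (p ^ j) pp.pos (pow_pos pp.pos j), eval_mul, h2, zero_mul]
  -- hence F (r ^ k) vanishes at c k ^ (p ^ (j+1))
  have hz : ∀ j, (F (r ^ k)).eval (c k ^ (p ^ (j + 1))) = 0 := by
    intro j
    have e1 := hfe (p ^ (j + 1)) (r ^ k) (pow_pos pp.pos _) (pow_pos pr.pos _)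
    have e2 := hfe (r ^ k) (p ^ (j + 1)) (pow_pos pr.pos _) (pow_pos pp.pos _)
    rw [mul_comm (r ^ k)] at e2
    have e3 := congrArg (Polynomial.eval (c k)) (e1.symm.trans e2)
    rw [eval_mul, eval_mul, expand_eval, expand_eval, hcr, hz2, mul_zero] at e3
    exact (mul_eq_zero.mp e3).resolve_left (hnz (j + 1))
  -- infinitely many zeros
  have hFr0 : F (r ^ k) ≠ 0 := (hsupp _ (pow_pos pr.pos _)).mpr (memr k)
  have hmem : ∀ j, c k ^ (p ^ (j + 1)) ∈ (F (r ^ k)).roots.toFinset := fun j => by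
    rw [Multiset.mem_toFinset, mem_roots hFr0]
    exact hz j
  obtain ⟨j, j', hjj, heq⟩ := Finite.exists_ne_map_eq_of_infinite
    (fun j => (⟨c k ^ (p ^ (j + 1)), hmem j⟩ : {x // x ∈ (F (r ^ k)).roots.toFinset}))
  have h5 : c k ^ (p ^ (j + 1)) = c k ^ (p ^ (j' + 1)) := congrArg Subtype.val heq
  have h6 := hcinj _ _ _ _ h5
  have h7 : p ^ (j + 1) = p ^ (j' + 1) := Nat.eq_of_mul_eq_mul_right (pow_pos pr.pos k) h6
  have h8 := Nat.pow_right_injective pp.two_le h7
  omega

/-- The example `(q - 2) / (q ^ n - 2)` on `S(P)`. -/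
lemma example_not_quotient {P : Set ℕ} (hP : ∀ p ∈ P, p.Prime) {p r : ℕ} (hp : p ∈ P) (hr : r ∈ P)
    (hpr : p ≠ r) : ∃ f : ℕ → RatFunc ℂ, IsRationalSolution P f ∧ ¬ IsQuotient P f := by
  classical
  set g : ℂ[X] := X - C 2 with hg
  have hg0 : g ≠ 0 := X_sub_C_ne_zero 2
  set f : ℕ → RatFunc ℂ := fun n => if n ∈ SP P then
    algebraMap ℂ[X] (RatFunc ℂ) g / algebraMap ℂ[X] (RatFunc ℂ) (expand ℂ n g) else 0 with hf
  refine ⟨f, ⟨?_, ?_⟩, ?_⟩
  · intro n hn
    by_cases h : n ∈ SP P
    · simp only [hf, h, if_true, ne_eq, iff_true]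
      exact div_ne_zero (am_ne hg0) (am_ne (expand_ne_zero' hn hg0))
    · simp [hf, h]
  · intro m n hm hn
    by_cases h : m * n ∈ SP P
    · obtain ⟨h1, h2⟩ := (SP_mul hP m n).mp h
      simp only [hf, h, h1, h2, if_true]
      rw [powSubst_div hm _ (expand_ne_zero' hn hg0), expand_expand]
      rw [div_mul_div_cancel₀ (am_ne (expand_ne_zero' hm hg0))]
    · by_cases h1 : m ∈ SP P
      · have h2 : n ∉ SP P := fun h2 => h ((SP_mul hP m n).mpr ⟨h1, h2⟩)
        simp only [hf, h, h1, h2, if_true, if_false]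
        rw [powSubst_zero, mul_zero]
      · simp only [hf, h, h1, if_false, zero_mul]
  · rintro ⟨F, G, hF, hG, hq⟩
    have pp := hP p hp
    have hmem : p ∈ SP P := Submonoid.subset_closure hp
    have h1 := (hq p pp.pos).1 hmem
    simp only [hf, hmem, if_true] at h1
    have hG0 : G p ≠ 0 := (hG.1 p pp.pos).mpr hmem
    rw [div_eq_div_iff (am_ne (expand_ne_zero' pp.pos hg0)) (am_ne hG0), ← map_mul, ← map_mul] at h1
    have h2 := RatFunc.algebraMap_injective ℂ h1
    have h3 := congrArg (Polynomial.eval 2) h2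
    rw [eval_mul, eval_mul, expand_eval] at h3
    simp only [hg, eval_sub, eval_X, eval_C, sub_self, zero_mul] at h3
    have h4 : ((2 : ℂ) ^ p - 2) ≠ 0 := by
      intro h
      have h5 : (2 : ℂ) ^ p = 2 ^ 1 := by rw [pow_one]; linear_combination h
      have h6 : (2 : ℕ) ^ p = 2 ^ 1 := by exact_mod_cast h5
      have h7 := Nat.pow_right_injective (le_refl 2) h6
      have := pp.two_le
      omega
    exact no_zero hP hp hr hpr hF ((mul_eq_zero.mp h3.symm).resolve_right h4)

/-- If `P` has at most one element, all rational solutions are quotients. -/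
lemma quotient_of_subsingleton {P : Set ℕ} (hP : ∀ p ∈ P, p.Prime) (hs : P.Subsingleton)
    (f : ℕ → RatFunc ℂ) (hf : IsRationalSolution P f) : IsQuotient P f := by
  obtain ⟨hsupp, hfe⟩ := hf
  have mem1 : 1 ∈ SP P := (Submonoid.closure P).one_mem
  have hf1 : f 1 = 1 := by
    have h1 : f 1 ≠ 0 := (hsupp 1 one_pos).mpr mem1
    have h2 := hfe 1 1 one_pos one_pos
    have h3 : powSubst 1 (f 1) = f 1 := by
      unfold powSubst
      rw [expand_one, expand_one]
      exact RatFunc.num_div_denom _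
    rw [h3, mul_one] at h2
    exact (mul_left_cancel₀ h1 (by rw [mul_one]; exact h2)).symm
  rcases hs.eq_empty_or_singleton with rfl | ⟨p, rfl⟩
  · have hS : ∀ n, n ∈ SP (∅ : Set ℕ) ↔ n = 1 := by
      intro n
      rw [mem_SP (by simp)]
      constructor
      · rintro ⟨h0, h⟩
        by_contra h1
        obtain ⟨q, hq, hqn⟩ := Nat.exists_prime_and_dvd h1
        exact h q hq hqn
      · rintro rfl
        exact ⟨one_ne_zero, fun q hq h => absurd (Nat.dvd_one.mp h) hq.ne_one⟩
    have hsol : IsPolynomialSolution ∅ (fun n => if n = 1 then (1 : ℂ[X]) else 0) := by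
      refine ⟨fun n hn => ?_, fun m n hm hn => ?_⟩
      · rw [hS]; by_cases h : n = 1 <;> simp [h]
      · by_cases h : m = 1
        · by_cases h' : n = 1
          · simp [h, h']
          · simp [h, h']
        · have : m * n ≠ 1 := fun h2 => h (Nat.eq_one_of_mul_eq_one_right h2)
          simp [h, this]
    refine ⟨_, _, hsol, hsol, fun n hn => ⟨fun h => ?_, fun h => ?_⟩⟩
    · rw [hS] at h
      subst h
      simp [hf1]
    · by_contra h'
      exact h ((hsupp n hn).mp h')
  · have pp : p.Prime := hP p rfl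
    have memp : ∀ j, p ^ j ∈ SP {p} := fun j =>
      (Submonoid.closure ({p} : Set ℕ)).pow_mem (Submonoid.subset_closure rfl) j
    have hS : ∀ n, n ∈ SP ({p} : Set ℕ) → ∃ j, n = p ^ j := by
      intro n hn
      rw [mem_SP hP] at hn
      exact ⟨_, Nat.eq_prime_pow_of_unique_prime_dvd hn.1 (fun {d} hd hdn => hn.2 d hd hdn)⟩
    classical
    -- the tower over a polynomial
    set tower : ℂ[X] → ℕ → ℂ[X] := fun A n => if n ∈ SP {p} then
      ∏ i ∈ Finset.range (n.factorization p), expand ℂ (p ^ i) A else 0 with htower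
    have htp : ∀ A j, tower A (p ^ j) = ∏ i ∈ Finset.range j, expand ℂ (p ^ i) A := by
      intro A j
      simp only [htower, memp j, if_true, Nat.factorization_pow, Finsupp.smul_apply,
        pp.factorization_self, smul_eq_mul, mul_one]
    have hsol : ∀ A : ℂ[X], A ≠ 0 → IsPolynomialSolution {p} (tower A) := by
      intro A hA
      refine ⟨fun n hn => ?_, fun m n hm hn => ?_⟩
      · constructor
        · intro h
          by_contra h'
          exact h (by simp [htower, h'])
        · intro h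
          obtain ⟨j, rfl⟩ := hS n h
          rw [htp]
          exact Finset.prod_ne_zero_iff.mpr fun i _ => expand_ne_zero' (pow_pos pp.pos i) hA
      · by_cases h : m * n ∈ SP {p}
        · obtain ⟨h1, h2⟩ := (SP_mul hP m n).mp h
          obtain ⟨a, rfl⟩ := hS m h1
          obtain ⟨b, rfl⟩ := hS n h2
          rw [← pow_add, htp, htp, htp, Finset.prod_range_add, map_prod]
          congr 1
          refine Finset.prod_congr rfl fun i _ => ?_
          rw [expand_expand, ← pow_add]
        · by_cases h1 : m ∈ SP {p}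
          · have h2 : n ∉ SP {p} := fun h2 => h ((SP_mul hP m n).mpr ⟨h1, h2⟩)
            simp only [htower, h, h2, if_false, map_zero, mul_zero]
          · simp only [htower, h, h1, if_false, zero_mul]
    have hfp0 : f p ≠ 0 := (hsupp p pp.pos).mpr (by simpa using memp 1)
    have hnum : (f p).num ≠ 0 := RatFunc.num_ne_zero hfp0
    have hden : (f p).denom ≠ 0 := RatFunc.denom_ne_zero _
    refine ⟨_, _, hsol _ hnum, hsol _ hden, fun n hn => ⟨fun h => ?_, fun h => ?_⟩⟩
    · obtain ⟨j, rfl⟩ := hS n h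
      rw [htp, htp]
      clear h hn
      induction j with
      | zero => simp [hf1]
      | succ j ih =>
        rw [pow_succ, hfe (p ^ j) p (pow_pos pp.pos j) pp.pos, ih, Finset.prod_range_succ,
          Finset.prod_range_succ, RingHom.map_mul, RingHom.map_mul]
        unfold powSubst
        rw [div_mul_div_comm]
    · by_contra h'
      exact h ((hsupp n hn).mp h')

/-- **Rational solutions of the functional equation of quantum multiplication.** -/
theorem result (P : Set ℕ) (hP : ∀ p ∈ P, p.Prime) :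
    (∀ f : ℕ → RatFunc ℂ, IsRationalSolution P f → IsQuotient P f) ↔ P.Subsingleton := by
  constructor
  · intro h p hp r hr
    by_contra hpr
    obtain ⟨f, hf, hnf⟩ := example_not_quotient hP hp hr hpr
    exact hnf (h f hf)
  · intro hs f hf
    exact quotient_of_subsingleton hP hs f hf

end Pool.Agent.Results.MP_bcdf42_nt.QuotientsIffSubsingleton
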